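import Pool.Agent.W729.D9

/-!
In the stratum of dilation surfaces of genus two with one cone point of angle `6 π` there is a
connected component of the triangulable locus in which no `SL(2, ℝ)`-orbit is dense.
-/

set_option autoImplicit false

namespace Pool.Agent.Results.MP_55f3b9_an.NoDenseOrbit

open Pool.Agent.W729.Dil

/-- Some connected component of the triangulable locus of the stratum of genus two with one cone
point of angle `6 π = 2 π * 3` contains no point whose `SL(2, ℝ)`-orbit is dense in it. -/
theorem result :
    ∃ X ∈ triangulableStratum 2 1 (fun _ => 3),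
      ∀ Y ∈ connectedComponentIn (triangulableStratum 2 1 (fun _ => 3)) X,
        ¬ connectedComponentIn (triangulableStratum 2 1 (fun _ => 3)) X ⊆ closure (orbit Y) :=
  ⟨(Dsurf s1).toModuli, D_mem s1, fun Y _ => no_dense Y⟩

end Pool.Agent.Results.MP_55f3b9_an.NoDenseOrbit
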